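import Pool.Agent.R925.FD.Loc

/-! # Coverings at a prime which divides `a` exactly once -/

set_option autoImplicit false

namespace Pool.Agent.N92.TC

open Finset Polynomial Pool.Agent.R925.FD

variable {p : ℕ} [hp : Fact p.Prime]

/-- the valuation at a prime which divides `a` exactly once -/
lemma val_once {a : ℤ} (hpa : (p : ℤ) ∣ a) (hpa2 : ¬ (p : ℤ) ^ 2 ∣ a) :
    a ≠ 0 ∧ padicValRat p (a : ℚ) = 1 := by
  have ha0 : a ≠ 0 := by
    rintro rfl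
    exact hpa2 (dvd_zero _)
  refine ⟨ha0, ?_⟩
  obtain ⟨q, hq⟩ := hpa
  have hpq : ¬ (p : ℤ) ∣ q := by
    rintro ⟨q', hq'⟩
    exact hpa2 ⟨q', by rw [hq, hq']; ring⟩
  have hq0 : (q : ℚ) ≠ 0 := by
    intro h5
    apply ha0
    rw [hq, Int.cast_eq_zero.1 h5, mul_zero]
  have hp0 : (p : ℚ) ≠ 0 := by exact_mod_cast hp.out.ne_zero
  rw [hq, Int.cast_mul, Int.cast_natCast, padicValRat.mul hp0 hq0,
    padicValRat.self hp.out.one_lt, padicValRat.of_int, padicValInt.eq_zero_of_not_dvd hpq]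
  rfl

/-- At a prime which divides `a` exactly once, a point of the covering over `ℚ_p` reduces to a zero of
`h`. -/
theorem reduces_once {K : Type} {n m : ℕ} (hn : 0 < n) (hm : 2 ≤ m) {g : K → ℤ[X]} {h : ℤ[X]}
    (hdeg : ∀ k, n ∣ (g k).natDegree) (hdegh : m ∣ h.natDegree)
    (hNC : ∀ u v : ZMod p, (u ≠ 0 ∨ v ≠ 0) → ∀ k, hom h u v = 0 → hom (g k) u v ≠ 0)
    {a : ℤ} (hpa : (p : ℤ) ∣ a) (hpa2 : ¬ (p : ℤ) ^ 2 ∣ a) {z w x : ℚ_[p]} (hzw : z ≠ 0 ∨ w ≠ 0)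
    (hx : (a : ℚ_[p]) * x ^ m = hom h z w) :
    ∃ u v : ZMod p, (u ≠ 0 ∨ v ≠ 0) ∧ hom h u v = 0 ∧
      ∀ (k : K) (d : ℤ), ¬ (p : ℤ) ∣ d → (∃ y : ℚ_[p], hom (g k) z w = (d : ℚ_[p]) * y ^ n) →
        ∃ y : ZMod p, hom (g k) u v = (d : ZMod p) * y ^ n := by
  obtain ⟨c, z', w', hc, hz, hw, hu⟩ := primitive hzw
  have hh0 : hom h (PadicInt.toZMod z') (PadicInt.toZMod w') = 0 := by
    by_contra hk
    rw [← hom_map] at hk
    obtain ⟨e, he⟩ := hdegh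
    have h1 : ((hom h z' w' : ℤ_[p]) : ℚ_[p]) = (a : ℚ_[p]) * (c ^ e * x) ^ m := by
      rw [hom_coe, ← hz, ← hw, hom_mul, ← hx, he, mul_pow, ← pow_mul, mul_comm e m]
      ring
    have h2 := val_of_toZMod hk
    have h3 := coe_ne_zero_of hk
    rw [h1] at h2 h3
    have h4 : (c ^ e * x) ^ m ≠ 0 := right_ne_zero_of_mul h3
    have ha0 : (a : ℚ_[p]) ≠ 0 := left_ne_zero_of_mul h3
    have hva : (a : ℚ_[p]).valuation = 1 := by
      obtain ⟨q, hq⟩ := hpa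
      have hpq : ¬ (p : ℤ) ∣ q := by
        intro h5
        obtain ⟨q', hq'⟩ := h5
        exact hpa2 ⟨q', by rw [hq, hq']; ring⟩
      have hq0 : (q : ℚ_[p]) ≠ 0 := by
        intro h5
        apply ha0
        rw [hq, Int.cast_mul, h5, mul_zero]
      have hp0 : (p : ℚ_[p]) ≠ 0 := by exact_mod_cast hp.out.ne_zero
      rw [hq, Int.cast_mul, Int.cast_natCast, Padic.valuation_mul hp0 hq0, Padic.valuation_p,
        Padic.valuation_intCast, padicValInt.eq_zero_of_not_dvd hpq]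
      rfl
    rw [Padic.valuation_mul ha0 h4, Padic.valuation_pow, hva] at h2
    have h5 : (m : ℤ) ∣ 1 := ⟨-(c ^ e * x).valuation, by linarith⟩
    have h6 := Int.le_of_dvd one_pos h5
    omega
  refine ⟨_, _, hu, hh0, fun k d hd hy => ?_⟩
  obtain ⟨y, hy⟩ := hy
  have hk := hNC _ _ hu k hh0
  rw [← hom_map] at hk
  obtain ⟨e, he⟩ := hdeg k
  have h1 : ((hom (g k) z' w' : ℤ_[p]) : ℚ_[p]) = (d : ℚ_[p]) * (c ^ e * y) ^ n := by
    rw [hom_coe, ← hz, ← hw, hom_mul, hy, he, mul_pow, ← pow_mul, mul_comm e n]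
    ring
  have h2 := PadicInt.isUnit_iff.1 (isUnit_of_toZMod hk)
  rw [PadicInt.norm_def, h1, norm_mul, norm_pow] at h2
  have h3 : ‖(d : ℚ_[p])‖ = 1 := by
    rw [Padic.norm_intCast_eq_one_iff]
    exact (Int.isCoprime_iff_gcd_eq_one.2 (by
      rw [Int.gcd_comm]
      exact_mod_cast (Nat.Prime.coprime_iff_not_dvd hp.out).2 (fun h => hd (Int.natCast_dvd.2 h))))
  rw [h3, one_mul] at h2
  have h4 : ‖c ^ e * y‖ = 1 := (pow_eq_one_iff_of_nonneg (norm_nonneg _) hn.ne').1 h2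
  obtain ⟨y', hy'⟩ : ∃ y' : ℤ_[p], (y' : ℚ_[p]) = c ^ e * y := ⟨⟨c ^ e * y, h4.le⟩, rfl⟩
  refine ⟨PadicInt.toZMod y', ?_⟩
  rw [← hom_map]
  have h5 : hom (g k) z' w' = (d : ℤ_[p]) * y' ^ n := by
    apply Subtype.coe_injective
    change ((hom (g k) z' w' : ℤ_[p]) : ℚ_[p]) = (((d : ℤ_[p]) * y' ^ n : ℤ_[p]) : ℚ_[p])
    rw [h1, PadicInt.coe_mul, PadicInt.coe_pow, hy', PadicInt.coe_intCast]
  rw [h5, map_mul, map_pow, map_intCast]

omit hp in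
/-- If `a x ^ m = ρ ≠ 0`, `m ≥ 2`, and `p` divides `a` exactly once, then `p` divides the numerator or
the denominator of `ρ`. -/
lemma bound_once {a : ℤ} {m q : ℕ} (hq : q.Prime) (hqa : (q : ℤ) ∣ a) (hqa2 : ¬ (q : ℤ) ^ 2 ∣ a)
    (hm : 2 ≤ m) {ρ x : ℚ} (hρ : ρ ≠ 0) (h : (a : ℚ) * x ^ m = ρ) :
    q ≤ ρ.num.natAbs * ρ.den := by
  have hF : Fact q.Prime := ⟨hq⟩
  obtain ⟨ha0, hva⟩ := val_once hqa hqa2
  have hx0 : x ≠ 0 := by
    rintro rfl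
    apply hρ
    rw [← h, zero_pow (by omega), mul_zero]
  have haQ : (a : ℚ) ≠ 0 := Int.cast_ne_zero.2 ha0
  have hnum : ρ.num ≠ 0 := Rat.num_ne_zero.2 hρ
  have hpos : 0 < ρ.num.natAbs * ρ.den := Nat.mul_pos (Int.natAbs_pos.2 hnum) ρ.den_pos
  by_contra hlt
  push Not at hlt
  have h1 : ¬ q ∣ ρ.num.natAbs * ρ.den := fun hd => by
    have := Nat.le_of_dvd hpos hd
    omega
  have h2 : padicValRat q ρ = 0 := by
    have e1 : ¬ (q : ℤ) ∣ ρ.num := fun hd => h1 ((Int.natCast_dvd.1 hd).trans (Dvd.intro _ rfl))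
    have e2 : ¬ q ∣ ρ.den := fun hd => h1 (hd.trans (Dvd.intro_left _ rfl))
    rw [padicValRat, padicValInt.eq_zero_of_not_dvd e1, padicValNat.eq_zero_of_not_dvd e2]
    rfl
  rw [← h, padicValRat.mul haQ (pow_ne_zero _ hx0), hva, padicValRat.pow] at h2
  have h5 : (m : ℤ) ∣ 1 := ⟨-(padicValRat q x), by linarith⟩
  have h6 := Int.le_of_dvd one_pos h5
  omega

end Pool.Agent.N92.TC
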