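import Pool.Agent.N680.TH.Thin
import Pool.Agent.N924.TH.Null

/-! # Sequences of integers which are uniformly distributed modulo all integers -/

set_option autoImplicit false
set_option linter.unusedSectionVars false

namespace Pool.Agent.N92.TC

open Finset Filter Pool.Agent.Y722.HS Pool.Agent.N666.TM
open Pool.Agent.N666.VE (primes)
open Pool.Agent.N680.TH (Once null_union null_iUnion)
open Pool.Agent.Y722.LS

/-- uniform distribution modulo all `q` along the sets `S N` -/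
def Eqd (S : ℕ → Finset ℕ) (a : ℕ → ℤ) : Prop :=
  ∀ q : ℕ, 1 ≤ q → ∀ ρ : ℤ,
    Tendsto (fun N => ({t : ℕ | t ∈ S N ∧ (q : ℤ) ∣ a t - ρ}.ncard : ℝ) / (S N).card)
      atTop (nhds (1 / (q : ℝ)))

theorem red_eq_iff {q : ℕ} (hq : 1 ≤ q) (x : Unit → ℤ) (ρ : Unit → ZMod q) :
    red q x = ρ ↔ (q : ℤ) ∣ x () - ((ρ ()).val : ℤ) := by
  have : NeZero q := ⟨by omega⟩
  constructor
  · rintro rfl
    rw [← dvd_neg, neg_sub, ← ZMod.intCast_eq_intCast_iff_dvd_sub]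
    simp [red]
  · intro h
    funext i
    rw [← dvd_neg, neg_sub, ← ZMod.intCast_eq_intCast_iff_dvd_sub] at h
    simpa [red] using h

theorem Eqd.well {S : ℕ → Finset ℕ} {a : ℕ → ℤ} (h : Eqd S a) (H : ℕ) :
    ∃ N₀ : ℕ, ∀ N : ℕ, N₀ ≤ N → Well (S N) (fun t (_ : Unit) => a t) H := by
  classical
  rw [← eventually_atTop]
  have hpos : ∀ᶠ N in atTop, 0 < (S N).card := by
    have h1 := h 1 le_rfl 0
    have h2 : (0 : ℝ) < 1 / ((1 : ℕ) : ℝ) := by positivity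
    filter_upwards [h1.eventually (lt_mem_nhds h2)] with N hN
    by_contra h0
    have h3 : (S N).card = 0 := by omega
    rw [h3, Nat.cast_zero, div_zero] at hN
    exact lt_irrefl _ hN
  have hq : ∀ q : ℕ, 1 ≤ q → ∀ ρ : Unit → ZMod q, ∀ᶠ N in atTop,
      |((#{n ∈ S N | red q (fun (_ : Unit) => a n) = ρ} : ℕ) : ℝ) / (S N).card -
        1 / (q : ℝ) ^ Fintype.card Unit| ≤
      1 / (2 * H + 1) * (1 / (q : ℝ) ^ Fintype.card Unit) := by
    intro q hq ρ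
    have h1 := h q hq ((ρ ()).val : ℤ)
    have hq0 : (0 : ℝ) < q := by exact_mod_cast hq
    have h2 : 0 < 1 / (2 * (H : ℝ) + 1) * (1 / (q : ℝ)) := by positivity
    rw [Metric.tendsto_atTop] at h1
    obtain ⟨N₀, hN₀⟩ := h1 _ h2
    filter_upwards [eventually_ge_atTop N₀] with N hN
    have h3 := hN₀ N hN
    rw [Real.dist_eq] at h3
    have e1 : ({t : ℕ | t ∈ S N ∧ (q : ℤ) ∣ a t - ((ρ ()).val : ℤ)}.ncard) =
        #{n ∈ S N | red q (fun (_ : Unit) => a n) = ρ} := by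
      rw [← Set.ncard_coe_finset]
      congr 1
      ext t
      rw [Finset.mem_coe, Finset.mem_filter, Set.mem_ofPred_eq]
      exact and_congr_right fun _ => (red_eq_iff hq (fun (_ : Unit) => a t) ρ).symm
    rw [e1] at h3
    rw [Fintype.card_unit, pow_one]
    exact h3.le
  have hall : ∀ᶠ N in atTop, ∀ q ∈ Finset.Icc 1 (2 * H + 1), ∀ ρ : Unit → ZMod q,
      |((#{n ∈ S N | red q (fun (_ : Unit) => a n) = ρ} : ℕ) : ℝ) / (S N).card -
        1 / (q : ℝ) ^ Fintype.card Unit| ≤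
      1 / (2 * H + 1) * (1 / (q : ℝ) ^ Fintype.card Unit) := by
    rw [eventually_all_finset]
    intro q hqm
    rw [Finset.mem_Icc] at hqm
    have : NeZero q := ⟨by omega⟩
    rw [eventually_all]
    exact fun ρ => hq q hqm.1 ρ
  filter_upwards [hpos, hall] with N h1 h2
  exact ⟨h1, fun q hq1 hq2 ρ => h2 q (Finset.mem_Icc.mpr ⟨hq1, hq2⟩) ρ⟩

/-- Almost all members of the sequence are divisible exactly once by a prime of a set of primes with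
divergent sum of reciprocals. -/
theorem null_of_div {S : ℕ → Finset ℕ} {x : ℕ → Unit → ℤ}
    (hw : ∀ H : ℕ, ∃ N₀ : ℕ, ∀ N : ℕ, N₀ ≤ N → Well (S N) x H)
    (Ps : Set ℕ) (hPs : ∀ p ∈ Ps, p.Prime)
    (hdiv : ¬ Summable (fun n : ℕ => Ps.indicator (fun n : ℕ => (1 : ℝ) / n) n)) :
    NullIn S {n | ¬ ∃ p ∈ Ps, Once p (x n ())} := by
  classical
  intro ε hε
  obtain ⟨y, hy⟩ : ∃ y : ℕ, 2 * (2 / (ε / 2)) ≤ ∑ p ∈ Finset.range y,
      Ps.indicator (fun n : ℕ => (1 : ℝ) / n) p := by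
    have hnn : ∀ p : ℕ, 0 ≤ Ps.indicator (fun n : ℕ => (1 : ℝ) / n) p := by
      intro p
      apply Set.indicator_nonneg
      intro _ _
      positivity
    have ht := (not_summable_iff_tendsto_nat_atTop_of_nonneg hnn).mp hdiv
    exact (ht.eventually_ge_atTop _).exists
  set P : Finset ℕ := (Finset.range y).filter (fun p => p ∈ Ps) with hP
  have hPsum : 2 * (2 / (ε / 2)) ≤ ∑ p ∈ P, 1 / (p : ℝ) := by
    rw [hP, Finset.sum_filter]
    refine hy.trans (le_of_eq (Finset.sum_congr rfl fun p _ => ?_))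
    by_cases h : p ∈ Ps
    · rw [Set.indicator_of_mem h, if_pos h]
    · rw [Set.indicator_of_notMem h, if_neg h]
  have hPm : ∀ p ∈ P, p < y ∧ p ∈ Ps := by
    intro p hp
    rw [hP, Finset.mem_filter, Finset.mem_range] at hp
    exact hp
  set H : ℕ := y ^ 4 + ⌈4 / (ε / 2)⌉₊ with hH
  obtain ⟨N₁, hN₁⟩ := hw H
  refine ⟨N₁, fun N hN => ?_⟩
  have hws := hN₁ N hN
  have hμ : 2 / (ε / 2) ≤ ∑ p ∈ P, dens (Om () p) := by
    calc 2 / (ε / 2) = 1 / 2 * (2 * (2 / (ε / 2))) := by ring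
      _ ≤ 1 / 2 * ∑ p ∈ P, 1 / (p : ℝ) := by gcongr
      _ = ∑ p ∈ P, 1 / 2 * (1 / (p : ℝ)) := by rw [Finset.mul_sum]
      _ ≤ _ := Finset.sum_le_sum fun p hp => by
        have h1 := dens_Om () p (hPs p (hPm p hp).2).two_le
        rw [Fintype.card_unit, pow_one] at h1
        exact h1
  have hμ0 : 0 < ∑ p ∈ P, dens (Om () p) := lt_of_lt_of_le (by positivity) hμ
  have h1 := turan hws P (fun p => p ^ 2) (fun p hp => Nat.pos_of_ne_zero (by
      have := (hPs p (hPm p hp).2).pos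
      positivity)) (fun p hp p' hp' hne =>
      Nat.Coprime.pow 2 2 ((Nat.coprime_primes (hPs p (hPm p hp).2) (hPs p' (hPm p' hp').2)).mpr hne))
    (fun p hp p' hp' => by
      have a1 : p ^ 2 ≤ y ^ 2 := Nat.pow_le_pow_left (hPm p hp).1.le 2
      have a2 : p' ^ 2 ≤ y ^ 2 := Nat.pow_le_pow_left (hPm p' hp').1.le 2
      calc p ^ 2 * p' ^ 2 ≤ y ^ 2 * y ^ 2 := Nat.mul_le_mul a1 a2
        _ = y ^ 4 := by ring
        _ ≤ 2 * H + 1 := by omega)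
    (fun p => Om () p) _ rfl hμ0
  have h2 : 2 / (∑ p ∈ P, dens (Om () p)) ≤ ε / 2 := by
    rw [div_le_iff₀ hμ0]
    rw [div_le_iff₀ (by positivity)] at hμ
    linarith
  have h3 : (4 : ℝ) / (2 * H + 1) ≤ ε / 2 := by
    have h4 : 4 / (ε / 2) ≤ (H : ℝ) :=
      (Nat.le_ceil _).trans (by exact_mod_cast (by omega : ⌈4 / (ε / 2)⌉₊ ≤ H))
    rw [div_le_iff₀ (by positivity)] at h4
    rw [div_le_iff₀ (by positivity)]
    nlinarith
  have hsub : {n : ℕ | n ∈ S N ∧ n ∈ {n | ¬ ∃ p ∈ Ps, Once p (x n ())}} ⊆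
      ↑((S N).filter fun n => ∀ p ∈ P, red (p ^ 2) (x n) ∉ Om () p) := by
    rintro n ⟨hn, hn'⟩
    rw [Finset.mem_coe, Finset.mem_filter]
    refine ⟨hn, fun p hp hcon => hn' ⟨p, (hPm p hp).2, ?_⟩⟩
    rw [mem_Om () p (hPs p (hPm p hp).2).one_lt.le] at hcon
    exact ⟨hcon.1, hcon.2.1⟩
  have h4 : ({n : ℕ | n ∈ S N ∧ n ∈ {n | ¬ ∃ p ∈ Ps, Once p (x n ())}}.ncard : ℝ) ≤
      (((S N).filter fun n => ∀ p ∈ P, red (p ^ 2) (x n) ∉ Om () p).card : ℝ) := by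
    have := Set.ncard_le_ncard hsub (Finset.finite_toSet _)
    rw [Set.ncard_coe_finset] at this
    exact_mod_cast this
  refine h4.trans (h1.trans ?_)
  gcongr
  linarith

/-- One null set for countably many sets of primes. -/
theorem one_null {S₁ S₂ : ℕ → Finset ℕ} (hS₁ : ∀ N, S₁ N ⊆ Ioc N (2 * N))
    (hS₂ : ∀ N, S₂ N ⊆ Ioc N (2 * N)) {a : ℕ → ℤ} (h₁ : Eqd S₁ a) (h₂ : Eqd S₂ a)
    {I : Type} [Countable I] (Ps : I → Set ℕ) (hPs : ∀ i, ∀ p ∈ Ps i, p.Prime)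
    (hdiv : ∀ i, ¬ Summable (fun n : ℕ => (Ps i).indicator (fun n : ℕ => (1 : ℝ) / n) n)) :
    ∃ E : Set ℕ, NullIn S₁ E ∧ NullIn S₂ E ∧
      ∀ i, {n : ℕ | n ∉ E ∧ ¬ ∃ p ∈ Ps i, Once p (a n)}.Finite := by
  classical
  have hb : ∀ i, NullIn S₁ {n : ℕ | ¬ ∃ p ∈ Ps i, Once p (a n)} ∧ NullIn S₂
      {n : ℕ | ¬ ∃ p ∈ Ps i, Once p (a n)} := fun i =>
    ⟨null_of_div h₁.well (Ps i) (hPs i) (hdiv i), null_of_div h₂.well (Ps i) (hPs i) (hdiv i)⟩
  rcases isEmpty_or_nonempty I with hI | hI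
  · refine ⟨∅, ?_, ?_, fun i => (hI.false i).elim⟩ <;>
    · intro ε hε
      refine ⟨0, fun N _ => ?_⟩
      simp only [Set.mem_empty_iff_false, and_false, Set.ofPred_false, Set.ncard_empty,
        Nat.cast_zero]
      positivity
  obtain ⟨e, he⟩ := exists_surjective_nat I
  set E : ℕ → Set ℕ := fun k => {n | ∃ i ≤ k,
    n ∈ {n : ℕ | ¬ ∃ p ∈ Ps (e i), Once p (a n)}} with hE
  have hmono : Monotone E := by
    intro k k' hk n hn
    obtain ⟨i, hi, hn⟩ := hn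
    exact ⟨i, hi.trans hk, hn⟩
  obtain ⟨E', h1, h2, h3⟩ := diag hmono hS₁ hS₂ (fun k => null_iUnion (fun i => (hb (e i)).1) k)
    (fun k => null_iUnion (fun i => (hb (e i)).2) k)
  refine ⟨E', h1, h2, fun i => ?_⟩
  obtain ⟨k, rfl⟩ := he i
  refine (h3 k).subset ?_
  rintro n ⟨hn, hn'⟩
  exact ⟨⟨k, le_rfl, hn'⟩, hn⟩

theorem eqd_of_well {S : ℕ → Finset ℕ} {a : ℕ → ℤ} {κ : ℝ} (hκ : 0 < κ)
    (h : ∃ N₀ : ℕ, ∀ N : ℕ, N₀ ≤ N → ∀ H : ℕ, (H : ℝ) ≤ (N : ℝ) ^ κ →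
      Well (S N) (fun t (_ : Unit) => a t) H) : Eqd S a := by
  classical
  intro q hq ρ
  obtain ⟨N₀, hN₀⟩ := h
  rw [Metric.tendsto_atTop]
  intro ε hε
  obtain ⟨H, hH⟩ := exists_nat_gt (max (1 / ε) q)
  have hH1 : 1 / ε < H := lt_of_le_of_lt (le_max_left _ _) hH
  have hH2 : (q : ℝ) < H := lt_of_le_of_lt (le_max_right _ _) hH
  have hev : ∀ᶠ N : ℕ in atTop, (H : ℝ) ≤ (N : ℝ) ^ κ :=
    ((tendsto_rpow_atTop hκ).comp tendsto_natCast_atTop_atTop).eventually_ge_atTop _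
  obtain ⟨N₁, hN₁⟩ := eventually_atTop.mp hev
  refine ⟨max N₀ N₁, fun N hN => ?_⟩
  have hw := hN₀ N ((le_max_left _ _).trans hN) H (hN₁ N ((le_max_right _ _).trans hN))
  have hqH : q ≤ 2 * H + 1 := by
    have : q < H := by exact_mod_cast hH2
    omega
  have h1 := hw.dist q hq hqH (fun _ => (ρ : ZMod q))
  have e1 : ({t : ℕ | t ∈ S N ∧ (q : ℤ) ∣ a t - ρ}.ncard) =
      #{n ∈ S N | red q (fun (_ : Unit) => a n) = fun _ => (ρ : ZMod q)} := by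
    rw [← Set.ncard_coe_finset]
    congr 1
    ext t
    rw [Finset.mem_coe, Finset.mem_filter, Set.mem_ofPred_eq]
    refine and_congr_right fun _ => ?_
    constructor
    · intro h
      funext i
      change ((a t : ℤ) : ZMod q) = _
      rw [eq_comm, ZMod.intCast_eq_intCast_iff_dvd_sub]
      exact h
    · intro h
      rw [← ZMod.intCast_eq_intCast_iff_dvd_sub, eq_comm]
      exact congrFun h ()
  rw [Real.dist_eq, e1]
  rw [Fintype.card_unit, pow_one] at h1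
  refine lt_of_le_of_lt h1 ?_
  have hq1 : (1 : ℝ) ≤ q := by exact_mod_cast hq
  have h2 : 1 / (q : ℝ) ≤ 1 := by
    rw [div_le_one (by positivity)]
    exact hq1
  have h3 : 1 / (2 * (H : ℝ) + 1) < ε := by
    have hH0 : (0 : ℝ) < H := lt_trans (by positivity) hH1
    rw [div_lt_iff₀ hε] at hH1
    rw [div_lt_iff₀ (by positivity)]
    nlinarith
  calc 1 / (2 * (H : ℝ) + 1) * (1 / (q : ℝ)) ≤ 1 / (2 * (H : ℝ) + 1) * 1 := by gcongr
    _ < ε := by rw [mul_one]; exact h3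

/-- generalised polynomials, integers and primes -/
theorem eqd_fl {F : Finset ℝ} {a : ℝ → ℝ} {c : ℝ}
    (h : c ∈ F ∧ (∀ t ∈ F, t ≤ c) ∧ 0 < c ∧ (∀ m : ℕ, c ≠ m) ∧ 0 < a c) :
    Eqd (fun N => Ioc N (2 * N)) (fun n => ⌊∑ t ∈ F, a t * (n : ℝ) ^ t⌋) ∧
      Eqd primes (fun n => ⌊∑ t ∈ F, a t * (n : ℝ) ^ t⌋) := by
  obtain ⟨⟨κ₁, hκ₁, g₁⟩, ⟨κ₂, hκ₂, g₂⟩⟩ := fl_well (ι := Unit) (F := fun _ => F) (a := fun _ => a)
    (c := fun _ => c) (fun _ => h) (fun _ _ _ => rfl)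
  exact ⟨eqd_of_well hκ₁ g₁, eqd_of_well hκ₂ g₂⟩

end Pool.Agent.N92.TC
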