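import Pool.Agent.R925.FD.Main
import Pool.Agent.TH888.B1.Roots
import Pool.Agent.N92.TC.Loc
import Pool.Agent.N92.TC.Null

/-! # The classes of coverings and their sets of primes -/

set_option autoImplicit false
set_option linter.unusedSectionVars false

namespace Pool.Agent.N92.TC

open Finset Polynomial Pool.Agent.R925.FD Pool.Agent.W401.Cheb Pool.Agent.W723.SecC
open Pool.Agent.TH888.B1 Pool.Agent.N666.TM
open Pool.Agent.N680.TH (Once)

/-- a class which is not persistent, and a number -/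
structure Dt where
  r : ℕ
  n : ℕ
  g : Fin r → ℤ[X]
  h : ℤ[X]
  s : Fin r → ℤ
  N : ℕ
  hn : 0 < n
  hh : h ≠ 0
  hdeg : ∀ k, n ∣ (g k).natDegree
  hs : ∀ k, s k ≠ 0
  hN : 0 < N
  np : ¬ Persistent n g h (fun k => (s k : ℚ))

theorem countable_dt : Countable Dt := by
  have h1 : Countable ℤ[X] := by
    rw [← Cardinal.mk_le_aleph0_iff]
    refine (Polynomial.cardinalMk_le_max).trans ?_
    simp
  let f : Dt → Σ r : ℕ, ℕ × (Fin r → ℤ[X]) × ℤ[X] × (Fin r → ℤ) × ℕ :=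
    fun d => ⟨d.r, d.n, d.g, d.h, d.s, d.N⟩
  have hf : Function.Injective f := by
    rintro ⟨r, n, g, h, s, N, a1, a2, a3, a4, a5, a6⟩ ⟨r', n', g', h', s', N', b1, b2, b3, b4, b5, b6⟩
      heq
    simp only [f] at heq
    obtain ⟨rfl, h2⟩ := Sigma.mk.inj_iff.mp heq
    have h3 := eq_of_heq h2
    simp only [Prod.mk.injEq] at h3
    obtain ⟨rfl, rfl, rfl, rfl, rfl⟩ := h3
    rfl
  exact hf.countable

/-- the primes at which the class has no point over a zero of `h` -/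
def Dt.P (d : Dt) : Set ℕ := {p | p.Prime ∧ ¬ p ∣ d.N ∧ ¬ R p d.n d.g d.h d.s}

theorem Dt.div (d : Dt) :
    ¬ Summable (fun n : ℕ => d.P.indicator (fun n : ℕ => (1 : ℝ) / n) n) := by
  classical
  have hnp := d.np
  unfold Persistent at hnp
  push Not at hnp
  obtain ⟨σ, hσ⟩ := hnp
  obtain ⟨L, iF, iN, iG, τ, m, hm, hL⟩ := cheb d.n d.hn d.g d.h d.hh d.hdeg d.s d.hs σ (by
    intro β h1 h2
    obtain ⟨k, hk⟩ := hσ β h1 h2
    refine ⟨k, fun y hy => ?_⟩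
    have h3 := hk y hy
    rw [Rat.cast_intCast] at h3
    exact h3)
  have hM0 : m * d.N ≠ 0 := (Nat.mul_pos hm d.hN).ne'
  have hfin : {p : ℕ | p ∣ m * d.N}.Finite := by
    refine (Set.finite_Iic (m * d.N)).subset fun p hp => ?_
    exact Nat.le_of_dvd (Nat.pos_of_ne_zero hM0) hp
  refine diverges_mono ?_ (diverges_diff hfin (frob_diverges L τ))
  rintro p ⟨⟨hp, hx⟩, hpM⟩
  have hpM' : ¬ p ∣ m * d.N := hpM
  exact ⟨hp, fun h => hpM' (h.mul_left _), hL p ⟨hp, fun h => hpM' (h.mul_right _), hx⟩⟩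

theorem primes_div (k : ℕ) : ¬ Summable (fun n : ℕ =>
    {p : ℕ | p.Prime ∧ k < p}.indicator (fun n : ℕ => (1 : ℝ) / n) n) := by
  have hfin : {p : ℕ | p ≤ k}.Finite := Set.finite_Iic k
  have h0 : ¬ Summable (fun n : ℕ => {p : ℕ | p.Prime}.indicator (fun n : ℕ => (1 : ℝ) / n) n) :=
    not_summable_one_div_on_primes
  refine diverges_mono ?_ (diverges_diff hfin h0)
  rintro p ⟨hp, hpk⟩
  exact ⟨hp, not_le.1 hpk⟩

lemma R_reindex {K K' : Type} (e : K' ≃ K) (p n : ℕ) (g : K → ℤ[X]) (h : ℤ[X]) (s : K → ℤ) :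
    R p n (g ∘ e) h (s ∘ e) ↔ R p n g h s := by
  unfold R
  constructor
  · rintro ⟨u, v, h1, h2, h3⟩
    refine ⟨u, v, h1, h2, fun k => ?_⟩
    have h4 := h3 (e.symm k)
    simpa using h4
  · rintro ⟨u, v, h1, h2, h3⟩
    exact ⟨u, v, h1, h2, fun k => h3 (e k)⟩

lemma pers_reindex {K K' : Type} (e : K' ≃ K) (n : ℕ) (g : K → ℤ[X]) (h : ℤ[X]) (s : K → ℤ)
    (hp : Persistent n (g ∘ e) h (fun k => ((s ∘ e) k : ℚ))) :
    Persistent n g h (fun k => (s k : ℚ)) := by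
  intro σ
  obtain ⟨β, h1, h2, h3⟩ := hp σ
  refine ⟨β, h1, h2, fun k => ?_⟩
  have h4 := h3 (e.symm k)
  simpa using h4

/-- **One null set** for all classes of coverings. -/
theorem one {S₁ S₂ : ℕ → Finset ℕ} (hS₁ : ∀ N, S₁ N ⊆ Ioc N (2 * N))
    (hS₂ : ∀ N, S₂ N ⊆ Ioc N (2 * N)) {a : ℕ → ℤ} (h₁ : Eqd S₁ a) (h₂ : Eqd S₂ a) :
    ∃ E : Set ℕ, NullIn S₁ E ∧ NullIn S₂ E ∧
      (∀ k : ℕ, {t : ℕ | t ∉ E ∧ ¬ ∃ p : ℕ, p.Prime ∧ k < p ∧ Once p (a t)}.Finite) ∧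
      ∀ (K : Type) [Fintype K] (n : ℕ) (g : K → ℤ[X]) (h : ℤ[X]) (s : K → ℤ) (N : ℕ), 0 < n →
        h ≠ 0 → (∀ k, n ∣ (g k).natDegree) → (∀ k, s k ≠ 0) → 0 < N →
        ¬ Persistent n g h (fun k => (s k : ℚ)) →
        {t : ℕ | t ∉ E ∧ ¬ ∃ p : ℕ, p.Prime ∧ ¬ p ∣ N ∧ ¬ R p n g h s ∧ Once p (a t)}.Finite := by
  classical
  have hc := countable_dt
  obtain ⟨E, e1, e2, e3⟩ := one_null hS₁ hS₂ h₁ h₂ (I := Dt ⊕ ℕ)
    (Sum.elim Dt.P fun k => {p : ℕ | p.Prime ∧ k < p})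
    (by
      rintro (d | k) p hp
      · exact hp.1
      · exact hp.1)
    (by
      rintro (d | k)
      · exact d.div
      · exact primes_div k)
  refine ⟨E, e1, e2, fun k => ?_, ?_⟩
  · refine (e3 (Sum.inr k)).subset ?_
    rintro t ⟨ht, hno⟩
    refine ⟨ht, fun hex => hno ?_⟩
    obtain ⟨p, hp, h1⟩ := hex
    exact ⟨p, hp.1, hp.2, h1⟩
  · intro K _ n g h s N hn hh hdeg hs hN hnp
    let e : Fin (Fintype.card K) ≃ K := (Fintype.equivFin K).symm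
    let d : Dt := ⟨Fintype.card K, n, g ∘ e, h, s ∘ e, N, hn, hh, fun k => hdeg (e k),
      fun k => hs (e k), hN, fun hp => hnp (pers_reindex e n g h s hp)⟩
    refine (e3 (Sum.inl d)).subset ?_
    rintro t ⟨ht, hno⟩
    refine ⟨ht, fun hex => hno ?_⟩
    obtain ⟨p, hp, h1⟩ := hex
    exact ⟨p, hp.1, hp.2.1, fun hR => hp.2.2 ((R_reindex e p n g h s).2 hR), h1⟩

end Pool.Agent.N92.TC
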