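import Pool.Agent.N92.TC.Cls

/-! # Coverings with local points have persistent classes: thin sequences of twists -/

set_option autoImplicit false
set_option linter.unusedSectionVars false

namespace Pool.Agent.N92.TC

open Finset Polynomial Pool.Agent.R925.FD Pool.Agent.N666.TM
open Pool.Agent.N680.TH (Once)

/-- the conclusion of `one` -/
def Rich (E : Set ℕ) (a : ℕ → ℤ) : Prop :=
  (∀ k : ℕ, {t : ℕ | t ∉ E ∧ ¬ ∃ p : ℕ, p.Prime ∧ k < p ∧ Once p (a t)}.Finite) ∧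
  ∀ (K : Type) [Fintype K] (n : ℕ) (g : K → ℤ[X]) (h : ℤ[X]) (s : K → ℤ) (N : ℕ), 0 < n →
    h ≠ 0 → (∀ k, n ∣ (g k).natDegree) → (∀ k, s k ≠ 0) → 0 < N →
    ¬ Persistent n g h (fun k => (s k : ℚ)) →
    {t : ℕ | t ∉ E ∧ ¬ ∃ p : ℕ, p.Prime ∧ ¬ p ∣ N ∧ ¬ R p n g h s ∧ Once p (a t)}.Finite

theorem main {E : Set ℕ} {a : ℕ → ℤ} (hE : Rich E a) {K : Type} [Fintype K] (n : ℕ) (hn : 0 < n)
    (b : ℤ) (hb : b ≠ 0) (g : K → ℤ[X])
    (h : ℤ[X]) (hg0 : ∀ k, g k ≠ 0) (hh0 : h ≠ 0) (hdeg : ∀ k, n ∣ (g k).natDegree)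
    (hgg : ∀ k l, k ≠ l →
      IsCoprime ((g k).map (Int.castRingHom ℚ)) ((g l).map (Int.castRingHom ℚ)))
    (hgh : ∀ k, IsCoprime (h.map (Int.castRingHom ℚ)) ((g k).map (Int.castRingHom ℚ))) :
    {t : ℕ | t ∉ E ∧ ∃ m, 2 ≤ m ∧ m ∣ h.natDegree ∧ ∃ δ : K → ℚ,
        IsClass n b δ ∧ ¬ Persistent n g h δ ∧
        ∀ (p : ℕ) [Fact p.Prime], CoveringHasPoint n m (a t) g h δ ℚ_[p]}.Finite := by
  classical
  obtain ⟨N0, hN0, hgood⟩ := good_primes g h hg0 hh0 hgg hgh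
  set N : ℕ := N0 * b.natAbs with hN
  have hNpos : 0 < N := Nat.mul_pos hN0 (Int.natAbs_pos.2 hb)
  have hgoodN : ∀ p : ℕ, ¬ p ∣ N → ¬ p ∣ N0 ∧ ¬ (p : ℤ) ∣ b := fun p hp =>
    ⟨fun h1 => hp (h1.trans (Dvd.intro _ rfl)),
      fun h1 => hp ((Int.natCast_dvd.1 h1).trans (Dvd.intro_left _ rfl))⟩
  -- the finite set of the classes
  set D : Finset ℤ := (Finset.Icc (-((N : ℤ) ^ n)) ((N : ℤ) ^ n)).filter (fun s => s ∣ (N : ℤ) ^ n)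
    with hD
  have hNn : (0 : ℤ) < (N : ℤ) ^ n := pow_pos (by exact_mod_cast hNpos) n
  have hmemD : ∀ s : ℤ, s ∣ (N : ℤ) ^ n → s ∈ D := by
    intro s hs
    rw [hD, mem_filter, Finset.mem_Icc]
    have h1 := Int.le_of_dvd hNn hs
    have h2 := Int.le_of_dvd hNn ((neg_dvd).2 hs)
    exact ⟨⟨by linarith, h1⟩, hs⟩
  have hD0 : ∀ s ∈ D, s ≠ 0 := by
    rintro s hs rfl
    rw [hD, mem_filter] at hs
    exact hNn.ne' (zero_dvd_iff.1 hs.2)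
  set Δ : Finset (K → ℤ) := (Fintype.piFinset fun _ : K => D).filter
    (fun s => ¬ Persistent n g h (fun k => (s k : ℚ))) with hΔ
  set B : (K → ℤ) → Set ℕ := fun s =>
    {t : ℕ | t ∉ E ∧ ¬ ∃ p : ℕ, p.Prime ∧ ¬ p ∣ N ∧ ¬ R p n g h s ∧ Once p (a t)} with hB
  have hBfin : ∀ s ∈ Δ, (B s).Finite := by
    intro s hs
    rw [hΔ, mem_filter, Fintype.mem_piFinset] at hs
    exact hE.2 K n g h s N hn hh0 hdeg (fun k => hD0 _ (hs.1 k)) hNpos hs.2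
  refine (Set.Finite.biUnion Δ.finite_toSet fun s hs => hBfin s hs).subset ?_
  rintro t ⟨htE, m, hm, hmh, δ, ⟨hδ0, τ, hτ⟩, hnp, hloc⟩
  have hval : ∀ k, ∀ p : ℕ, p.Prime → ¬ p ∣ N → (n : ℤ) ∣ padicValRat p (δ k) := by
    intro k p hp hpN
    have hpF : Fact p.Prime := ⟨hp⟩
    obtain ⟨z, w, x, hzw, hx, hy⟩ := hloc p
    exact val_dvd hdeg (fun u v huv => (hgood p hpF (hgoodN p hpN).1 u v huv).1) hb
      (hgoodN p hpN).2 hδ0 hτ hzw hy k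
  choose s c hs hc hsc using fun k => rep (δ k) (hδ0 k) N hNpos n hn (hval k)
  rw [Set.mem_iUnion₂]
  refine ⟨s, ?_, htE, ?_⟩
  · rw [Finset.mem_coe, hΔ, mem_filter, Fintype.mem_piFinset]
    refine ⟨fun k => hmemD _ (hs k), fun hper => hnp ?_⟩
    intro σ
    obtain ⟨β, hβ, hβh, hy⟩ := hper σ
    refine ⟨β, hβ, hβh, fun k => ?_⟩
    obtain ⟨y, hyσ, hyk⟩ := hy k
    have hck : ((c k : ℚ) : AlgebraicClosure ℚ) ≠ 0 := Rat.cast_ne_zero.2 (hc k)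
    have hσc : σ ((c k : ℚ) : AlgebraicClosure ℚ) = ((c k : ℚ) : AlgebraicClosure ℚ) :=
      map_ratCast σ (c k)
    refine ⟨y / (c k : ℚ), ?_, ?_⟩
    · rw [map_div₀, hyσ, hσc]
    · rw [hyk, hsc k, div_pow]
      push_cast
      have h5 : ((c k : ℚ) : AlgebraicClosure ℚ) ^ n ≠ 0 := pow_ne_zero _ hck
      field_simp
  · rintro ⟨p, hp, hpN, hR, hpa, hpa2⟩
    have hpF : Fact p.Prime := ⟨hp⟩
    apply hR
    obtain ⟨z, w, x, hzw, hx, hy⟩ := hloc p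
    obtain ⟨u, v, huv, hhuv, hred⟩ := reduces_once (K := K) hn hm hdeg hmh
      (fun u v huv => (hgood p hpF (hgoodN p hpN).1 u v huv).2) hpa hpa2 hzw hx
    refine ⟨u, v, huv, hhuv, fun k => ?_⟩
    refine hred k (s k) (fun h3 => ?_) ?_
    · have h4 : (p : ℤ) ∣ (N : ℤ) ^ n := h3.trans (hs k)
      have h5 := (Nat.prime_iff_prime_int.1 hp).dvd_of_dvd_pow h4
      exact hpN (by exact_mod_cast h5)
    · obtain ⟨y, hyk⟩ := hy k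
      refine ⟨(c k : ℚ) * y, ?_⟩
      rw [hyk, hsc k]
      push_cast
      ring

end Pool.Agent.N92.TC
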