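import Pool.Agent.R925.FD.Sec4
import Pool.Agent.N92.TC.Main

/-! # Sections over thin sequences of twists of a cyclic covering -/

set_option autoImplicit false
set_option linter.unusedSectionVars false

namespace Pool.Agent.N92.TC

open Finset Polynomial Pool.Agent.R925.FD Pool.Agent.N666.TM
open Pool.Agent.TH954 Pool.Agent.TH942
open Pool.Agent.N680.TH (Once)

variable {K : Type} [Fintype K]

/-- sections have persistent classes -/
theorem sec_main {E : Set ℕ} {a : ℕ → ℤ} (hE : Rich E a) {n : ℕ} (hn : 0 < n) {b : ℤ} (hb : b ≠ 0)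
    {g : K → ℤ[X]} {h : ℤ[X]} (hg0 : ∀ k, g k ≠ 0) (hh0 : h ≠ 0) (hdeg : ∀ k, n ∣ (g k).natDegree)
    (hgg : ∀ k l, k ≠ l →
      IsCoprime ((g k).map (Int.castRingHom ℚ)) ((g l).map (Int.castRingHom ℚ)))
    (hgh : ∀ k, IsCoprime (h.map (Int.castRingHom ℚ)) ((g k).map (Int.castRingHom ℚ))) :
    {t : ℕ | t ∉ E ∧ ∃ m, 2 ≤ m ∧ m ∣ h.natDegree ∧ ¬ SectionsPersistent n m b (a t) g h}.Finite := by
  classical
  refine (main hE n hn b hb g h hg0 hh0 hdeg hgg hgh).subset ?_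
  rintro t ⟨htE, m, hm, hmh, hno⟩
  refine ⟨htE, m, hm, hmh, ?_⟩
  by_contra hcon
  apply hno
  intro F Ω B _ _ _ _ _ _ _ _ _ _ z x y hz hy hx s hs
  obtain ⟨δ, h3, h4⟩ := exists_sectionClass hn hb hg0 s hz hy
  refine ⟨δ, h3, h4, ?_⟩
  by_contra hper
  have ha0 : a t ≠ 0 := by
    intro h0
    rw [h0, Int.cast_zero, zero_mul] at hx
    exact aeval_ne_zero hz hh0 hx.symm
  exact hcon ⟨δ, h3, hper, fun p _ => cov_of_section hn (by omega) ha0 hdeg hmh s hs hz hx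
    h3.1 h4 p⟩

/-- The section comes from exactly one rational point, which lies over a zero of `h` if `a` is
divisible exactly once by a large prime. -/
theorem bsc_once {M₀ : ℕ} (hM₀ : 1 ≤ M₀) {f h : ℤ[X]} (hh0 : h ≠ 0) {α : ℤ}
    (hf : EllipticFactor f α M₀) :
    ∃ N : ℕ, ∀ (F Ω B : Type) [Field F] [Field Ω] [Field B] [Algebra ℚ F] [Algebra F Ω]
      [Algebra ℚ Ω] [Algebra ℚ B] [IsScalarTower ℚ F Ω] [IsAlgClosure F Ω] [IsAlgClosure ℚ B]
      (S : GalSection ℚ F Ω B), LocallyGeometric S → ∀ (z x : F), Transcendental ℚ z →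
      Algebra.IsAlgebraic (IntermediateField.adjoin ℚ {z}) F → ∀ (m : ℕ) (a : ℤ), 2 ≤ m →
      m ∣ h.natDegree → (∃ q : ℕ, q.Prime ∧ N < q ∧ Once q a) → (a : F) * x ^ m = aeval z h →
      ∀ (d : ℚ) (γ : Ω), IsSquare (d * (f.eval α : ℤ)) → (∀ σ, S.s σ γ = γ) →
      algebraMap F Ω (aeval z f) = (d : Ω) * γ ^ 2 →
      ∃ O : ValuationSubring F, S.ArisesFrom O ∧ (∀ O', S.ArisesFrom O' → O' = O) ∧ x⁻¹ ∉ O := by
  classical
  obtain ⟨A, B', p, q, r, s, c, hdisc, hfin, hSha, hps, hc, hfα, ⟨r₁, hr₁⟩, hfe⟩ := hf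
  have hrs : r ≠ 0 ∨ s ≠ 0 := by
    by_contra h
    push Not at h
    apply hps
    rw [h.1, h.2]
    ring
  -- the values of `z`
  let xc : (sw (A : ℚ) (B' : ℚ)).toAffine.Point → ℚ := fun P =>
    match P with
    | .zero => 0
    | .some x _ _ => x
  set T : Set ℚ := {ρ | ρ = hom h (-s) r ∨ ∃ P, ρ = hom h (xc P * s - q) (p - xc P * r)} with hT
  have hTf : T.Finite := by
    have h1 : T = {hom h (-s) r} ∪ Set.range (fun P => hom h (xc P * s - q) (p - xc P * r)) := by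
      ext ρ
      constructor
      · rintro (h | ⟨P, h⟩)
        · exact Or.inl h
        · exact Or.inr ⟨P, h.symm⟩
      · rintro (h | ⟨P, h⟩)
        · exact Or.inl h
        · exact Or.inr ⟨P, h.symm⟩
    rw [h1]
    exact (Set.finite_singleton _).union (Set.finite_range _)
  obtain ⟨N, hN⟩ := (hTf.image (fun ρ : ℚ => ρ.num.natAbs * ρ.den)).bddAbove
  refine ⟨N, ?_⟩
  intro F Ω B _ _ _ _ _ _ _ _ _ _ S hS z x hz halg m a hm hmh hqa hx d γ hd hγ hfγ
  have ha0 : a ≠ 0 := by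
    obtain ⟨q', -, -, -, h2⟩ := hqa
    rintro rfl
    exact h2 (dvd_zero _)
  have hbig : ∀ {u v : ℚ}, hom h u v ∈ T → ∀ x₀ : ℚ, (a : ℚ) * x₀ ^ m = hom h u v →
      hom h u v = 0 := by
    intro u v huv x₀ hx₀
    by_contra hne
    obtain ⟨q', hq', hNq, hqa1, hqa2⟩ := hqa
    have h1 := bound_once hq' hqa1 hqa2 hm hne hx₀
    have h2 := hN ⟨_, huv, rfl⟩
    exact absurd (h1.trans h2) (not_le.2 hNq)
  obtain ⟨r₂, hr₂⟩ := hd
  have hcF : CharZero F := charZero_of_injective_algebraMap (algebraMap ℚ F).injective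
  have hcΩ : CharZero Ω := charZero_of_injective_algebraMap (algebraMap F Ω).injective
  set v : ℚ := ((f.eval α : ℤ) : ℚ) with hv
  have hv0 : v ≠ 0 := Int.cast_ne_zero.2 hfα
  set U : F := algebraMap ℚ F p * z + algebraMap ℚ F q with hU
  set V : F := algebraMap ℚ F r * z + algebraMap ℚ F s with hV
  have hV0 : V ≠ 0 := lin_ne hz hrs
  have hXc : ∀ κ : ℚ, U / V ≠ algebraMap ℚ F κ := by
    intro κ hκ
    rw [div_eq_iff hV0] at hκ
    have h1 : algebraMap ℚ F (p - κ * r) * z + algebraMap ℚ F (q - κ * s) = 0 := by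
      simp only [map_sub, map_mul]
      linear_combination hκ
    refine lin_ne hz ?_ h1
    by_contra h
    push Not at h
    apply hps
    linear_combination s * h.1 - r * h.2
  have hfz : aeval z f = algebraMap ℚ F c * V ^ 4 *
      ((U / V) ^ 3 + algebraMap ℚ F (A : ℚ) * (U / V) + algebraMap ℚ F (B' : ℚ)) := by
    rw [aeval_int, hfe]
    simp only [map_mul, map_add, map_pow, aeval_C, aeval_X]
    rw [← hU, ← hV]
    field_simp
  have hvΩ : (v : Ω) ≠ 0 := Rat.cast_ne_zero.2 hv0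
  have hcΩ0 : (c : Ω) ≠ 0 := Rat.cast_ne_zero.2 hc
  have hVΩ : algebraMap F Ω V ≠ 0 := (_root_.map_ne_zero _).2 hV0
  set Y : Ω := (r₁ : Ω) * r₂ * γ / (v * c * algebraMap F Ω V ^ 2) with hY
  have hYfix : ∀ g, S.s g Y = Y := by
    intro g
    rw [hY, map_div₀, map_mul, map_mul, map_mul, map_mul, map_ratCast, map_ratCast, map_ratCast,
      map_ratCast, map_pow, hγ g, AlgEquiv.commutes]
  have hr₁' : (r₁ : Ω) ^ 2 = c * v := by
    rw [sq]
    exact_mod_cast congrArg (Rat.cast (K := Ω)) hr₁.symm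
  have hr₂' : (r₂ : Ω) ^ 2 = d * v := by
    rw [sq]
    exact_mod_cast congrArg (Rat.cast (K := Ω)) hr₂.symm
  have hfΩ := hfγ
  rw [hfz] at hfΩ
  have hYX : Y ^ 2 = algebraMap F Ω (U / V) ^ 3 + algebraMap ℚ Ω (A : ℚ) * algebraMap F Ω (U / V) +
      algebraMap ℚ Ω (B' : ℚ) := by
    have h1 : algebraMap F Ω (U / V) ^ 3 + algebraMap ℚ Ω (A : ℚ) * algebraMap F Ω (U / V) +
        algebraMap ℚ Ω (B' : ℚ) = (d * γ ^ 2) / (c * algebraMap F Ω V ^ 4) := by
      rw [eq_div_iff (mul_ne_zero hcΩ0 (pow_ne_zero 4 hVΩ)), ← hfΩ]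
      simp only [map_mul, map_add, map_pow, ← IsScalarTower.algebraMap_apply]
      rw [eq_ratCast (algebraMap ℚ Ω) c]
      ring
    rw [h1, hY, div_pow, mul_pow, mul_pow, hr₁', hr₂']
    field_simp
  obtain ⟨O, h1, h2, h3⟩ := bir_pt' (shortInt_of hdisc)
    hfin hM₀ hSha S hS ⟨z, hz, halg⟩ (U / V) hXc Y hYfix hYX
  refine ⟨O, h1, h2, ?_⟩
  have hO := h1.2.1
  have hO2 := h1.2.2.1
  have haF : (a : F) ≠ 0 := Int.cast_ne_zero.2 ha0
  have hx0 : x ≠ 0 := by
    rintro rfl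
    rw [zero_pow (by omega : m ≠ 0), mul_zero] at hx
    exact aeval_ne_zero hz hh0 hx.symm
  have hval0 : ∀ {y : F}, y ≠ 0 → O.valuation y ≠ 0 := fun hy => (Valuation.ne_zero_iff _).2 hy
  rcases h3 with h3 | ⟨a', b', hns, h3⟩
  · have h4 : O.valuation (algebraMap ℚ F r * z - algebraMap ℚ F (-s)) <
        O.valuation (algebraMap ℚ F p * z + algebraMap ℚ F q) := by
      have h5 : algebraMap ℚ F r * z - algebraMap ℚ F (-s) = V := by
        rw [map_neg, sub_neg_eq_add]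
      rw [h5, ← hU]
      rw [← O.valuation_le_one_iff, not_le, map_div₀] at h3
      exact (one_lt_div₀ (zero_lt_iff.2 (hval0 hV0))).1 h3
    obtain ⟨h6, h7⟩ := cases_of_lt hO h4
    refine locate hh0 (by omega) hmh ha0 hO hO2 hx0 hx (u := -s) (v := r) ?_ h6 h7
      (hbig (Or.inl rfl))
    rcases hrs with h | h
    · exact Or.inr h
    · exact Or.inl (neg_ne_zero.2 h)
  · have hXa : U / V - algebraMap ℚ F a' ≠ 0 := sub_ne_zero.2 (hXc a')
    have h4 : O.valuation (algebraMap ℚ F (p - a' * r) * z - algebraMap ℚ F (a' * s - q)) <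
        O.valuation (algebraMap ℚ F r * z + algebraMap ℚ F s) := by
      have h5 : algebraMap ℚ F (p - a' * r) * z - algebraMap ℚ F (a' * s - q) =
          (U / V - algebraMap ℚ F a') * V := by
        rw [sub_mul, div_mul_cancel₀ _ hV0]
        simp only [map_sub, map_mul]
        ring
      rw [h5, ← hV, map_mul]
      rw [← O.valuation_le_one_iff, not_le, map_inv₀] at h3
      have h6 : O.valuation (U / V - algebraMap ℚ F a') < 1 :=
        (one_lt_inv₀ (zero_lt_iff.2 (hval0 hXa))).1 h3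
      calc O.valuation (U / V - algebraMap ℚ F a') * O.valuation V
          < 1 * O.valuation V := mul_lt_mul_of_pos_right h6 (zero_lt_iff.2 (hval0 hV0))
        _ = O.valuation V := one_mul _
    obtain ⟨h6, h7⟩ := cases_of_lt hO h4
    refine locate hh0 (by omega) hmh ha0 hO hO2 hx0 hx (u := a' * s - q) (v := p - a' * r)
      ?_ h6 h7 (hbig (Or.inr ⟨.some a' b' hns, rfl⟩))
    by_contra hcon
    push Not at hcon
    apply hps
    linear_combination r * hcon.1 + s * hcon.2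

theorem fromZeros {E : Set ℕ} {a : ℕ → ℤ} (hE : Rich E a) {b : ℤ} (hb : b ≠ 0) {g : K → ℤ[X]}
    {h : ℤ[X]} (hg0 : ∀ k, g k ≠ 0) (hh0 : h ≠ 0) (hdeg : ∀ k, 2 ∣ (g k).natDegree)
    (hgg : ∀ k l, k ≠ l →
      IsCoprime ((g k).map (Int.castRingHom ℚ)) ((g l).map (Int.castRingHom ℚ)))
    (hgh : ∀ k, IsCoprime (h.map (Int.castRingHom ℚ)) ((g k).map (Int.castRingHom ℚ)))
    (hOZ : OnlyZeros b g h) {M₀ : ℕ} (hM₀ : 1 ≤ M₀) (T : Finset K)
    (hT : ∀ α : ℤ, h.eval α = 0 → EllipticFactor (∏ k ∈ T, g k) α M₀) :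
    {t : ℕ | t ∉ E ∧ ∃ m, 2 ≤ m ∧ m ∣ h.natDegree ∧
      ¬ SectionsFromZeros 2 m b (a t) g h}.Finite := by
  classical
  -- the constant
  have hroots : {α : ℤ | h.eval α = 0}.Finite := by
    refine (Polynomial.finite_setOfPred_isRoot hh0).subset ?_
    intro α hα
    exact hα
  choose N hN using fun α : {α : ℤ // h.eval α = 0} => bsc_once hM₀ hh0 (hT α.1 α.2)
  obtain ⟨N₀, hN₀⟩ : ∃ N₀ : ℕ, ∀ α, N α ≤ N₀ := by
    have : Finite {α : ℤ // h.eval α = 0} := hroots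
    obtain ⟨N₀, hN₀⟩ := (Set.finite_range N).bddAbove
    exact ⟨N₀, fun α => hN₀ ⟨α, rfl⟩⟩
  refine ((sec_main hE (n := 2) (by norm_num) hb hg0 hh0 hdeg hgg hgh).union
    (hE.1 N₀)).subset ?_
  rintro t ⟨htE, m, hm, hmh, hno⟩
  by_cases hq : ∃ p : ℕ, p.Prime ∧ N₀ < p ∧ Once p (a t)
  · left
    refine ⟨htE, m, hm, hmh, fun hP => hno ?_⟩
    intro F Ω B _ _ _ _ _ _ _ _ _ _ z x y hz halg hy hx s hs
    have hcF : CharZero F := charZero_of_injective_algebraMap (algebraMap ℚ F).injective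
    have hcΩ : CharZero Ω := charZero_of_injective_algebraMap (algebraMap F Ω).injective
    obtain ⟨δ, h3, h4, h5⟩ := hP F Ω B z x y hz hy hx s hs
    obtain ⟨α, hα, hsq⟩ := hOZ δ h3 h5
    choose γ hγ hγ' using h4
    obtain ⟨p, hp, hpN, hpa⟩ := hq
    have hlt : N ⟨α, hα⟩ < p := lt_of_le_of_lt (hN₀ _) hpN
    obtain ⟨O, h6, h7, h8⟩ := hN ⟨α, hα⟩ F Ω B s hs z x hz halg m (a t) hm hmh
      ⟨p, hp, hlt, hpa⟩ hx
      (∏ k ∈ T, δ k) (∏ k ∈ T, γ k) (by
        choose r hr using hsq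
        refine ⟨∏ k ∈ T, r k, ?_⟩
        rw [eval_prod, Int.cast_prod, ← prod_mul_distrib, ← prod_mul_distrib]
        exact prod_congr rfl fun k _ => hr k) (by
        intro σ
        rw [map_prod]
        exact prod_congr rfl fun k _ => hγ k σ) (by
        rw [map_prod, map_prod, prod_congr rfl fun k _ => hγ' k, prod_mul_distrib, prod_pow,
          Rat.cast_prod])
    exact ⟨⟨O, h6, h7⟩, fun O' hO' => by rw [h7 O' hO']; exact h8⟩
  · right
    exact ⟨htE, hq⟩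

end Pool.Agent.N92.TC
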